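import Pool.Agent.H295R2.M

/-!
# The exact rate of approximation in Beurling's theorem: definitions and statements of the parts

Each `def Xxx : Prop` below is a statement to be proved in its own file.
-/

set_option autoImplicit false

open MeasureTheory Filter Topology Set

namespace Pool.Agent.H295R2.Beu

noncomputable section

/-- `F u = sin(πu/2)^4 / u^2`  (in Lean `F 0 = 0`, and `F` is continuous). -/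
def F (u : ℝ) : ℝ := Real.sin (Real.pi * u / 2) ^ 4 / u ^ 2

/-- `psi = -F'` on `(0, ∞)`. -/
def psi (u : ℝ) : ℝ :=
  2 * Real.sin (Real.pi * u / 2) ^ 4 / u ^ 3 -
    2 * Real.pi * Real.sin (Real.pi * u / 2) ^ 3 * Real.cos (Real.pi * u / 2) / u ^ 2

/-- `Psi s = ∫_0^∞ u^s psi(u) du` (absolutely convergent for `-1 < Re s < 1`). -/
def Psi (s : ℂ) : ℂ := ∫ u in Ioi (0:ℝ), (u : ℂ) ^ s * (psi u : ℂ)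

/-- `ker s N v = ∫_{1/N}^∞ w^s psi(v w) dw`. -/
def ker (s : ℂ) (N v : ℝ) : ℂ := ∫ w in Ioi (1 / N), (w : ℂ) ^ s * (psi (v * w) : ℂ)

/-- the weighted `L^p` error of the combination with coefficients `c` and dilations `θ` -/
def comb {m : ℕ} (c θ : Fin m → ℝ) (x : ℝ) : ℝ := ∑ j, c j * Int.fract (θ j / x)

/-! ## Part A: lower bound -/

/-- A1a -/
def PsiBound : Prop := ∀ u : ℝ, 0 < u → |psi u| ≤ 24 ∧ |psi u| ≤ 24 / u ^ 2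

/-- A1b: `psi` annihilates `u ↦ {t u}` for all `t ≥ 1`. -/
def PsiAnn : Prop := ∀ t : ℝ, 1 ≤ t → ∫ u in Ioi (0:ℝ), Int.fract (t * u) * psi u = 0

/-- A2 -/
def PsiNe : Prop := ∀ s : ℂ, 0 < s.re → s.re < 1 → Psi s ≠ 0

/-- A3 -/
def FractMellin : Prop := ∀ s : ℂ, 0 < s.re → s.re < 1 → ∀ t : ℝ, 0 < t →
  IntegrableOn (fun v : ℝ => ((Int.fract (t * v) : ℝ) : ℂ) * (v : ℂ) ^ (-s - 1)) (Ioi 0) ∧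
  ∫ v in Ioi (0:ℝ), ((Int.fract (t * v) : ℝ) : ℂ) * (v : ℂ) ^ (-s - 1) = -((t : ℂ) ^ s * riemannZeta s / s)

/-- A4m -/
def KerMeas : Prop := ∀ (s : ℂ) (N : ℝ), StronglyMeasurable (ker s N)

/-- A4a -/
def KerBound : Prop := ∀ s : ℂ, 0 < s.re → s.re < 1 → ∃ C : ℝ, 0 < C ∧ ∀ N : ℝ, 1 ≤ N → ∀ v : ℝ, 0 < v →
  ‖ker s N v‖ ≤ C * v ^ (-s.re - 1) ∧ ‖ker s N v‖ ≤ C * N ^ (1 - s.re) * v ^ (-2 : ℝ)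

/-- A4b -/
def KerAnn : Prop := ∀ s : ℂ, 0 < s.re → s.re < 1 → riemannZeta s = 0 → ∀ N : ℝ, 1 ≤ N → ∃ a : ℂ,
  ∀ θ : ℝ, 1 / N ≤ θ → θ ≤ 1 → ∫ v in Ioi (1:ℝ), ((Int.fract (θ * v) : ℝ) : ℂ) * ker s N v = a * θ

/-- A4c -/
def KerMass : Prop := ∀ s : ℂ, 0 < s.re → s.re < 1 → ∃ c : ℝ, 0 < c ∧ ∃ N0 : ℝ, 1 ≤ N0 ∧ ∀ N : ℝ, N0 ≤ N →
  c ≤ ‖∫ v in Ioi (1:ℝ), ker s N v‖

/-- A5: the lower bound -/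
def LowerB : Prop := ∀ p γ : ℝ, 1 ≤ p → -1 < γ → (γ ≤ 0 ∨ γ < p - 1) →
  ∀ s : ℂ, 0 < s.re → s.re < 1 → riemannZeta s = 0 → ∀ η : ℝ, 0 < η → (1 + γ) / p - s.re < η →
  ∃ c : ℝ, 0 < c ∧ ∀ N : ℕ, 1 ≤ N → ∀ (m : ℕ) (a θ : Fin m → ℝ), (∀ j, (1 / (N:ℝ)) ≤ θ j ∧ θ j ≤ 1) →
    ∑ j, a j * θ j = 0 →
    c * (N:ℝ) ^ (-η) ≤ (∫ x in (0:ℝ)..1, |1 - comb a θ x| ^ p * x ^ γ) ^ (1 / p)

/-! ## Part B: upper bound.  `Zs s = (s-1) ζ(s)` (entire), `Mx y = ∑_{k ≤ y} μ(k)`, `mu k = μ(k)`. -/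

/-- zero-free hypothesis -/
def ZF (θ : ℝ) : Prop := ∀ s : ℂ, θ < s.re → Zs s ≠ 0

/-- `∑_{n ≤ N} μ(n)/n` -/
def mm (N : ℕ) : ℝ := ∑ n ∈ Finset.Icc 1 N, mu n / n

/-- `∑_{n ≤ N} μ(n) n^{-s}` -/
def MN (N : ℕ) (s : ℂ) : ℂ := ∑ n ∈ Finset.Icc 1 N, (mu n : ℂ) * (n : ℂ) ^ (-s)

/-- the remainder function of the natural approximant, in the variable `y = 1/x`:
`1 + ∑_{n ≤ N} μ(n) {y/n} - N m(N) {y/N}` -/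
def RR (N : ℕ) (y : ℝ) : ℝ :=
  1 + ∑ n ∈ Finset.Icc 1 N, mu n * Int.fract (y / n) - N * mm N * Int.fract (y / N)

/-- the tail transform `∫_N^∞ (M(u) - M(N)) u^{-s-1} du` -/
def GG (N : ℕ) (s : ℂ) : ℂ := ∫ u in Ioi (N:ℝ), ((Mx u - Mx N : ℝ) : ℂ) * (u : ℂ) ^ (-s - 1)

/-- B1 -/
def ZetaLine : Prop := ∀ θ σ ε : ℝ, 1 / 4 ≤ θ → θ < σ → σ < 1 → ZF θ → 0 < ε →
  ∃ C : ℝ, 0 < C ∧ ∀ t : ℝ, ‖riemannZeta (σ + t * Complex.I)‖ ≤ C * (1 + |t|) ^ ε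

/-- B2a -/
def RZero : Prop := ∀ N : ℕ, 1 ≤ N → ∀ y : ℝ, 1 ≤ y → y < N → RR N y = 0

/-- B2b -/
def RBound : Prop := ∀ N : ℕ, 1 ≤ N → ∀ y : ℝ, |RR N y| ≤ 3 * (N:ℝ) ^ 2

/-- B2c -/
def RMellin : Prop := ∀ N : ℕ, 1 ≤ N → ∀ s : ℂ, 0 < s.re → s.re < 1 →
  ∫ y in Ioi (1:ℝ), (RR N y : ℂ) * (y : ℂ) ^ (-s - 1) =
    (1 - riemannZeta s * MN N s + mm N * (N : ℂ) ^ (1 - s) * riemannZeta s) / s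

/-- B3a -/
def TailEq : Prop := ∀ θ σ : ℝ, 1 / 4 ≤ θ → θ < σ → σ < 1 → ZF θ → ∀ N : ℕ, 1 ≤ N → ∀ t : ℝ,
  1 - riemannZeta (σ + t * Complex.I) * MN N (σ + t * Complex.I) =
    riemannZeta (σ + t * Complex.I) * ((σ + t * Complex.I) * GG N (σ + t * Complex.I))

/-- B3b -/
def TailL2 : Prop := ∀ θ σ : ℝ, 1 / 4 ≤ θ → θ < σ → σ < 1 → ZF θ → ∃ C : ℝ, 0 < C ∧ ∀ N : ℕ, 1 ≤ N →
  Integrable (fun t : ℝ => ‖GG N (σ + t * Complex.I)‖ ^ 2) ∧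
  ∫ t : ℝ, ‖GG N (σ + t * Complex.I)‖ ^ 2 ≤ C

/-- B4 -/
def MmBound : Prop := ∀ θ σ : ℝ, 1 / 4 ≤ θ → θ < σ → σ < 1 → ZF θ → ∃ C : ℝ, 0 < C ∧ ∀ N : ℕ, 1 ≤ N →
  |mm N| ≤ C * (N:ℝ) ^ (σ - 1)

/-- B5a: bound of the transform on the line -/
def HatL2 : Prop := ∀ θ σ δ : ℝ, 1 / 4 ≤ θ → θ < σ → σ < 1 → ZF θ → 0 < δ → ∃ C : ℝ, 0 < C ∧
  ∀ N : ℕ, 1 ≤ N →
  ∫ t : ℝ, ‖∫ y in Ioi (1:ℝ), (RR N y : ℂ) * (y : ℂ) ^ (-((σ:ℂ) + t * Complex.I) - 1)‖ ^ 2 ≤ C * (N:ℝ) ^ δ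

/-- B5b: weighted L2 bound -/
def RL2 : Prop := ∀ θ σ δ : ℝ, 1 / 4 ≤ θ → θ < σ → σ < 1 → ZF θ → 0 < δ → ∃ C : ℝ, 0 < C ∧
  ∀ N : ℕ, 1 ≤ N → ∫ y in Ioi (1:ℝ), RR N y ^ 2 * y ^ (-2 * σ - 1) ≤ C * (N:ℝ) ^ δ

/-- B6: the upper bound -/
def UpperB : Prop := ∀ p γ θ σ δ : ℝ, 0 < p → p ≤ 2 → -1 < γ → 1 / 4 ≤ θ → θ < σ → σ < 1 → ZF θ →
  σ * p < 1 + γ → 0 < δ → ∃ C : ℝ, 0 < C ∧ ∀ N : ℕ, 1 ≤ N →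
  ∃ a : Fin N → ℝ, ∑ j, a j * (1 / ((j : ℕ) + 1 : ℝ)) = 0 ∧
    ∫ x in (0:ℝ)..1, |1 - comb a (fun j => 1 / ((j : ℕ) + 1 : ℝ)) x| ^ p * x ^ γ ≤ C * (N:ℝ) ^ (σ * p - (1 + γ) + δ)

end

end Pool.Agent.H295R2.Beu
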