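import Pool.Agent.H295R2.Beu.Defs
import Pool.Agent.H295R2.T7

set_option autoImplicit false

open MeasureTheory Filter Topology Set

namespace Pool.Agent.H295R2.Beu

noncomputable section

/-- the set of weighted errors of the admissible combinations with dilations in `S` -/
def errSet (p γ : ℝ) (S : Set ℝ) : Set ℝ :=
  {d : ℝ | ∃ (m : ℕ) (c θ : Fin m → ℝ), (∀ j, θ j ∈ S) ∧ ∑ j, c j * θ j = 0 ∧
    d = (∫ x in (0:ℝ)..1, |1 - ∑ j, c j * Int.fract (θ j / x)| ^ p * x ^ γ) ^ (1 / p)}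

lemma errSet_base (p γ : ℝ) (S : Set ℝ) :
    (∫ x in (0:ℝ)..1, |1 - ∑ j : Fin 0, (0:ℝ) * Int.fract ((0:ℝ) / x)| ^ p * x ^ γ) ^ (1 / p) ∈ errSet p γ S :=
  ⟨0, fun _ => 0, fun _ => 0, fun j => j.elim0, by simp, by simp⟩

lemma errSet_nonneg {p γ : ℝ} {S : Set ℝ} {d : ℝ} (hd : d ∈ errSet p γ S) : 0 ≤ d := by
  obtain ⟨m, c, θ, _, _, rfl⟩ := hd
  apply Real.rpow_nonneg
  apply intervalIntegral.integral_nonneg zero_le_one
  intro x hx
  have := hx.1
  positivity

lemma errSet_bddBelow (p γ : ℝ) (S : Set ℝ) : BddBelow (errSet p γ S) := ⟨0, fun _ hd => errSet_nonneg hd⟩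

theorem rate_of (hL : LowerB) (hU : UpperB) (p γ : ℝ) (hp : 1 ≤ p) (hp2 : p ≤ 2) (hγ : -1 < γ)
    (hγp : γ ≤ 0 ∨ γ < p - 1) (S : ℕ → Set ℝ) (hS1 : ∀ N n : ℕ, 1 ≤ n → n ≤ N → 1 / (n:ℝ) ∈ S N)
    (hS2 : ∀ N : ℕ, S N ⊆ Icc (1 / (N:ℝ)) 1) :
    Tendsto (fun N : ℕ => Real.log (sInf (errSet p γ (S N))) / Real.log N) atTop
      (𝓝 (-(max 0 ((1 + γ) / p - zetaSup)))) := by
  have hp0 : 0 < p := by linarith
  set α : ℝ := (1 + γ) / p with hα
  set κ : ℝ := max 0 (α - zetaSup) with hκ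
  have hκ0 : 0 ≤ κ := le_max_left _ _
  have hΘ := half_le_zetaSup
  have hΘ1 := zetaSup_le_one
  have hα1 : α ≤ 1 := by
    rw [hα, div_le_one hp0]
    rcases hγp with h | h <;> linarith
  refine log_limit (fun ε hε => ?_) (fun ε hε => ?_)
  · -- lower bound
    obtain ⟨s, hs1, hs2⟩ := zetaSup_sup (min (ε / 2 / 2) (1 / 4)) (by positivity)
    have hm1 : min (ε / 2 / 2) (1 / 4) ≤ ε / 2 / 2 := min_le_left _ _
    have hm2 : min (ε / 2 / 2) (1 / 4 : ℝ) ≤ 1 / 4 := min_le_right _ _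
    obtain ⟨hz, hs0, hs3⟩ := zeta_of_Zs hs2 (by linarith)
    have hη : 0 < κ + ε / 2 := by positivity
    have hκ2 : α - zetaSup ≤ κ := le_max_right _ _
    obtain ⟨c, hc, h⟩ := hL p γ hp hγ hγp s hs0 hs3 hz (κ + ε / 2) hη (by
      rw [← hα]; linarith)
    have hev : ∀ᶠ N : ℕ in atTop, 1 / c ≤ (N:ℝ) ^ (ε / 2) :=
      ((tendsto_rpow_atTop (by linarith : 0 < ε / 2)).comp tendsto_natCast_atTop_atTop).eventually_ge_atTop _
    filter_upwards [hev, eventually_ge_atTop 1] with N h1 hN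
    have hN0 : (0:ℝ) < N := by exact_mod_cast hN
    have h2 : c * (N:ℝ) ^ (-(κ + ε / 2)) ≤ sInf (errSet p γ (S N)) := by
      refine le_csInf ⟨_, errSet_base p γ (S N)⟩ ?_
      rintro d ⟨m, a, θ, hθ, hsum, rfl⟩
      exact h N hN m a θ (fun j => hS2 N (hθ j)) hsum
    refine le_trans ?_ h2
    have e1 : (N:ℝ) ^ (-κ - ε) = (N:ℝ) ^ (-(κ + ε / 2)) * (N:ℝ) ^ (-(ε / 2)) := by
      rw [← Real.rpow_add hN0]; congr 1; ring
    rw [e1, mul_comm]
    refine mul_le_mul_of_nonneg_right ?_ (by positivity)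
    rw [Real.rpow_neg hN0.le]
    rw [div_le_iff₀ hc] at h1
    rw [inv_le_iff_one_le_mul₀ (by positivity)]
    linarith
  · -- upper bound
    rcases le_or_gt α zetaSup with hcase | hcase
    · -- trivial
      have hκ' : κ = 0 := by rw [hκ, max_eq_left]; linarith
      rw [hκ', neg_zero, zero_add]
      set C0 := (∫ x in (0:ℝ)..1, |1 - ∑ j : Fin 0, (0:ℝ) * Int.fract ((0:ℝ) / x)| ^ p * x ^ γ) ^ (1 / p) with hC0
      have hev : ∀ᶠ N : ℕ in atTop, C0 ≤ (N:ℝ) ^ ε :=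
        ((tendsto_rpow_atTop hε).comp tendsto_natCast_atTop_atTop).eventually_ge_atTop _
      filter_upwards [hev] with N h1
      exact (csInf_le (errSet_bddBelow p γ (S N)) (errSet_base p γ (S N))).trans h1
    · have hκ' : κ = α - zetaSup := by rw [hκ, max_eq_right]; linarith
      obtain ⟨σ, hσ1, hσ2⟩ := exists_between (show zetaSup < min α (zetaSup + ε / 4) by
        rw [lt_min_iff]; constructor <;> linarith)
      have hσα : σ < α := hσ2.trans_le (min_le_left _ _)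
      have hσε : σ < zetaSup + ε / 4 := hσ2.trans_le (min_le_right _ _)
      have hσp : σ * p < 1 + γ := by
        rw [hα, lt_div_iff₀ hp0] at hσα
        exact hσα
      obtain ⟨C, hC, h⟩ := hU p γ zetaSup σ (p * (ε / 4)) hp0 hp2 hγ (by linarith) hσ1 (by linarith)
        zetaSup_free hσp (by positivity)
      have hev : ∀ᶠ N : ℕ in atTop, C ^ (1 / p) ≤ (N:ℝ) ^ (ε / 2) :=
        ((tendsto_rpow_atTop (by linarith : 0 < ε / 2)).comp tendsto_natCast_atTop_atTop).eventually_ge_atTop _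
      filter_upwards [hev, eventually_ge_atTop 1] with N h1 hN
      have hN0 : (0:ℝ) < N := by exact_mod_cast hN
      have hN1 : (1:ℝ) ≤ N := by exact_mod_cast hN
      obtain ⟨a, ha1, ha2⟩ := h N hN
      have hmem : (∫ x in (0:ℝ)..1, |1 - comb a (fun j : Fin N => 1 / ((j : ℕ) + 1 : ℝ)) x| ^ p * x ^ γ) ^ (1 / p) ∈
          errSet p γ (S N) := by
        refine ⟨N, a, fun j : Fin N => 1 / ((j : ℕ) + 1 : ℝ), fun j => ?_, ha1, rfl⟩
        have := hS1 N ((j : ℕ) + 1) (by omega) (by have := j.2; omega)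
        push_cast at this
        exact this
      refine (csInf_le (errSet_bddBelow p γ (S N)) hmem).trans ?_
      have hnn : 0 ≤ ∫ x in (0:ℝ)..1, |1 - comb a (fun j : Fin N => 1 / ((j : ℕ) + 1 : ℝ)) x| ^ p * x ^ γ := by
        apply intervalIntegral.integral_nonneg zero_le_one
        intro x hx
        have := hx.1
        positivity
      calc _ ≤ (C * (N:ℝ) ^ (σ * p - (1 + γ) + p * (ε / 4))) ^ (1 / p) :=
            Real.rpow_le_rpow hnn ha2 (by positivity)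
        _ = C ^ (1 / p) * (N:ℝ) ^ ((σ * p - (1 + γ) + p * (ε / 4)) * (1 / p)) := by
            rw [Real.mul_rpow hC.le (by positivity), ← Real.rpow_mul hN0.le]
        _ ≤ (N:ℝ) ^ (ε / 2) * (N:ℝ) ^ ((σ * p - (1 + γ) + p * (ε / 4)) * (1 / p)) := by gcongr
        _ = (N:ℝ) ^ (ε / 2 + (σ - α + ε / 4)) := by
            rw [← Real.rpow_add hN0]
            congr 1
            rw [hα]
            field_simp
        _ ≤ (N:ℝ) ^ (-κ + ε) := by
            apply Real.rpow_le_rpow_of_exponent_le hN1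
            rw [hκ']
            linarith

end

end Pool.Agent.H295R2.Beu
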