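import Pool.Agent.H295R2.Beu.Asm
import Pool.Agent.H295R2.Beu.B1
import Pool.Agent.H497R2.Beu.LowB
import Pool.Agent.H959R2.Beu.FractMellin
import Pool.Agent.H814R2.BeuR
import Pool.Agent.H846R2.Beu.B6
import Pool.Agent.H766R2.HatL2
import Pool.Agent.H25R2.BeuTailEq
import Pool.Agent.H965R3.RL2
import Pool.Agent.H747R2.BeuA4c
import Pool.Agent.H909R2.BeuB4
import Pool.Agent.H143R2.PsiNe
import Pool.Agent.H640R2.BeuA1
import Pool.Agent.H495R2.BeuA4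
import Pool.Agent.H896R2.Beu.TailL2

set_option autoImplicit false

open MeasureTheory Filter Topology Set

namespace Pool.Agent.H295R2.Beu

noncomputable section

theorem lower_final : LowerB :=
  H497R2.LowB.lowerB_of H495R2.BeuA4.kerMeas (H495R2.BeuA4.kerBound H640R2.BeuA1.psiBound)
    (H495R2.BeuA4.kerAnn H640R2.BeuA1.psiBound H640R2.BeuA1.psiAnn H959R2.Beu.fractMellin)
    (H747R2.BeuA4c.kerMass H640R2.BeuA1.psiBound H143R2.PsiNe.psiNe)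

theorem upper_final : UpperB :=
  H846R2.Beu.upperB
    (H965R3.RL2.rL2 (H766R2.HatL2.hatL2 (H814R2.BeuR.rMellin H959R2.Beu.fractMellin) zetaLine H25R2.BeuTail.tailEq
      H896R2.Beu.tailL2 H909R2.BeuB4.mm_bound) H814R2.BeuR.rBound)
    H814R2.BeuR.rZero H814R2.BeuR.rBound

theorem rate_final (p γ : ℝ) (hp : 1 ≤ p) (hp2 : p ≤ 2) (hγ : -1 < γ)
    (hγp : γ ≤ 0 ∨ γ < p - 1) (S : ℕ → Set ℝ) (hS1 : ∀ N n : ℕ, 1 ≤ n → n ≤ N → 1 / (n:ℝ) ∈ S N)
    (hS2 : ∀ N : ℕ, S N ⊆ Icc (1 / (N:ℝ)) 1) :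
    Tendsto (fun N : ℕ => Real.log (sInf (errSet p γ (S N))) / Real.log N) atTop
      (𝓝 (-(max 0 ((1 + γ) / p - zetaSup)))) :=
  rate_of lower_final upper_final p γ hp hp2 hγ hγp S hS1 hS2

end

end Pool.Agent.H295R2.Beu
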